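import Mathlib

set_option autoImplicit false

namespace Pool.Agent.Results.MP_9c4245_co.Unbounded

open Finset Classical

variable {V : Type}

/-- `G` is a `k`-threshold graph -/
def IsThr (G : SimpleGraph V) (k : ℕ) : Prop :=
  ∃ θ : Fin k → ℝ, StrictMono θ ∧ ∃ r : V → ℝ, ∀ v w, v ≠ w →
    (G.Adj v w ↔ Odd (univ.filter fun i => θ i ≤ r v + r w).card)

/-- threshold dimension -/
noncomputable def tdim (G : SimpleGraph V) : ℕ :=
  sInf {k | ∃ T : Fin k → SimpleGraph V, (∀ i, IsThr (T i) 1) ∧ G = ⨆ i, T i}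

abbrev W (s : ℕ) := (Fin s × Fin s) ⊕ (Fin s ⊕ Fin s)

def rk {s : ℕ} : Fin 2 → W s → ℤ
  | 0, .inl x => x.1
  | 1, .inl x => x.2
  | 0, .inr (.inl i) => -i
  | 1, .inr (.inr i) => -i
  | _, _ => 0

def T (s : ℕ) (i : Fin 2) : SimpleGraph (W s) where
  Adj v w := v ≠ w ∧ rk i v + rk i w < 0
  symm := ⟨fun _ _ h => ⟨h.1.symm, add_comm (rk i _) _ ▸ h.2⟩⟩
  loopless := ⟨fun _ h => h.1 rfl⟩

lemma one (θ : Fin 1 → ℝ) (a : ℝ) : Odd (univ.filter fun i => θ i ≤ a).card ↔ θ 0 ≤ a := by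
  by_cases h : θ 0 ≤ a <;> simp [filter_singleton, h]

lemma adj {s : ℕ} (x : Fin s × Fin s) (y : Fin s ⊕ Fin s) : (⨆ i, T s i).Adj (.inl x) (.inr y) ↔
    y.elim (x.1 < ·) (x.2 < ·) := by
  cases y <;> simp [T, rk, Fin.exists_fin_two]

theorem result (C : ℕ) : ∃ (V : Type) (_ : Fintype V) (G : SimpleGraph V),
    tdim Gᶜ = 2 ∧ ∀ k ≤ C, ¬ IsThr G k := by
  refine ⟨W (2 * C + 2), inferInstance, (⨆ i, T _ i)ᶜ, ?_, fun k hk ⟨θ, _, r, h⟩ => ?_⟩
  · have m : 2 ∈ {k | ∃ S : Fin k → SimpleGraph (W (2 * C + 2)), (∀ i, IsThr (S i) 1) ∧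
        ⨆ i, T _ i = ⨆ i, S i} := ⟨_, fun i => ⟨fun _ => 1, Subsingleton.strictMono _,
      fun v => -rk i v, fun v w h => by
        rw [one]; simp only [T, h, ne_eq, not_false_eq_true, true_and]; norm_cast; omega⟩, rfl⟩
    rw [compl_compl]
    refine le_antisymm (Nat.sInf_le m) (le_csInf ⟨2, m⟩ fun k ⟨S, h1, h2⟩ => not_lt.1 fun hk => ?_)
    have a := (adj (s := 2 * C + 2) (0, 1) (.inl 1)).2 (by simp)
    have b := (adj (s := 2 * C + 2) (1, 0) (.inr 1)).2 (by simp)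
    have c := (adj (s := 2 * C + 2) (0, 1) (.inr 1)).not.2 (by simp)
    have d := (adj (s := 2 * C + 2) (1, 0) (.inl 1)).not.2 (by simp)
    rw [h2] at a b c d
    interval_cases k
    · simp at a
    · obtain ⟨θ, -, r, h⟩ := h1 0
      rw [iSup_unique, show S default = S 0 from rfl, h _ _ (by simp), one] at a b c d
      linarith
  · let f : Fin (2 * C + 2) × Fin (2 * C + 2) → Finset (Fin k × (Fin (2 * C + 2) ⊕ Fin (2 * C + 2))) :=
      fun x => univ.filter fun p => θ p.1 ≤ r (.inl x) + r (.inr p.2)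
    have mono : ∀ x x', r (.inl x) ≤ r (.inl x') → f x ⊆ f x' := fun x x' h p hp =>
      mem_filter.2 ⟨mem_univ _, by linarith [(mem_filter.1 hp).2]⟩
    have := card_le_card_of_injOn (s := univ) (t := range (k * (2 * C + 2 + (2 * C + 2)) + 1))
      (fun x => (f x).card) (fun x _ => by simpa [Nat.lt_succ_iff] using card_le_univ (f x))
      fun x _ x' _ e => ?_
    · simp at this; nlinarith
    have e : f x = f x' := (le_total (r (.inl x)) (r (.inl x'))).elim
      (fun h => eq_of_subset_of_card_le (mono _ _ h) e.ge)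
      fun h => (eq_of_subset_of_card_le (mono _ _ h) e.le).symm
    have k : ∀ y : Fin (2 * C + 2) ⊕ Fin (2 * C + 2),
        y.elim (x.1 < ·) (x.2 < ·) ↔ y.elim (x'.1 < ·) (x'.2 < ·) := fun y => by
      have := (h (.inl x) (.inr y) (by simp)).trans ((iff_of_eq (congrArg (fun s => Odd (card s))
        (filter_congr fun i _ => by simpa [f] using Finset.ext_iff.1 e (i, y)))).trans
        (h (.inl x') (.inr y) (by simp)).symm)
      simp only [SimpleGraph.compl_adj, adj] at this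
      simpa [not_iff_not] using this
    exact Prod.ext (eq_of_forall_gt_iff fun y => k (.inl y)) (eq_of_forall_gt_iff fun y => k (.inr y))

end Pool.Agent.Results.MP_9c4245_co.Unbounded
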